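import Pool.Agent.V8H75.Nag.Sym

/-! Symmetries of a compact Riemannian manifold from the derivative `-id`. -/

set_option autoImplicit false

namespace Pool.Agent.V8H75.Nag

open Pool.Agent.Helper381 Metric Set Filter Topology Bundle Manifold
open scoped ContDiff

universe u v

section

variable {E : Type v} [NormedAddCommGroup E] [NormedSpace ℝ E] [FiniteDimensional ℝ E]
  {M : Type u} [MetricSpace M] [ChartedSpace E M] [IsManifold 𝓘(ℝ, E) ∞ M]
  [RiemannianBundle (fun (x : M) ↦ TangentSpace 𝓘(ℝ, E) x)]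
  [IsContMDiffRiemannianBundle 𝓘(ℝ, E) ∞ E (fun (x : M) ↦ TangentSpace 𝓘(ℝ, E) x)]
  [IsRiemannianManifold 𝓘(ℝ, E) M]

theorem exists_loc' (p : M) : ∃ c : Loc M E, c.ψ c.x₀ = p ∧ c.φ = extChartAt 𝓘(ℝ, E) p ∧
    c.ψ = psi p ∧ c.x₀ = extChartAt 𝓘(ℝ, E) p p := by
  obtain ⟨g, hgx, hgt, hG⟩ := exists_metCoef (E := E) p
  refine ⟨{ toMetCoef := g, φ := extChartAt 𝓘(ℝ, E) p, ψ := psi p,
            φψ := fun v hv => (extChartAt 𝓘(ℝ, E) p).right_inv (hgt hv),
            isOpen_image := fun V hV hVo => isOpen_psi_image p (hV.trans hgt) hVo,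
            contφ := ?_, contψ := (continuousOn_extChartAt_symm p).mono hgt,
            up := ?_, lo := ?_ }, ?_, rfl, rfl, hgx⟩
  · apply (continuousOn_extChartAt p).mono
    rintro _ ⟨v, hv, rfl⟩
    exact (extChartAt 𝓘(ℝ, E) p).map_target (hgt hv)
  · intro x hx y hy K hK h
    apply up_chart p _ K hK
    · intro t ht
      have := h t ht
      rwa [hG] at this
    · intro t ht
      apply hgt
      have := (convex_ball g.x₀ g.r) hx hy (by linarith [ht.2] : (0 : ℝ) ≤ 1 - t) ht.1 (by ring)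
      have e : (1 - t) • x + t • y = x + t • (y - x) := by module
      rwa [e] at this
  · intro x hx s K hs hK h y hy
    obtain ⟨w, hw, hwy, hle⟩ := lo_chart p hgt hx hs hK (by
      intro w hw
      have := h w (by rw [hG]; exact hw)
      refine ⟨this.1, fun v => ?_⟩
      have h2 := this.2 v
      rwa [hG, hG] at h2) y hy
    exact ⟨w, hw, hwy, by rw [hG]; exact hle⟩
  · change psi p g.x₀ = p
    rw [hgx]
    exact extChartAt_to_inv p

theorem hasFDerivAt_of_mfderiv (s : M → M) (x : M) (hfix : s x = x)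
    (hder : mfderiv 𝓘(ℝ, E) 𝓘(ℝ, E) s x = -ContinuousLinearMap.id ℝ E) :
    HasFDerivAt (fun v => extChartAt 𝓘(ℝ, E) x (s (psi x v))) (-ContinuousLinearMap.id ℝ E)
      (extChartAt 𝓘(ℝ, E) x x) := by
  rcases subsingleton_or_nontrivial E with hE | hE
  · have h1 : (fun v => extChartAt 𝓘(ℝ, E) x (s (psi x v))) = id := by
      funext v; exact Subsingleton.elim _ _
    rw [h1]
    have h2 : (-ContinuousLinearMap.id ℝ E) = ContinuousLinearMap.id ℝ E := by
      ext v; exact Subsingleton.elim _ _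
    rw [h2]
    exact hasFDerivAt_id _
  · have hd : MDifferentiableAt 𝓘(ℝ, E) 𝓘(ℝ, E) s x := by
      by_contra hn
      rw [mfderiv_zero_of_not_mdifferentiableAt hn] at hder
      obtain ⟨v, hv⟩ := exists_ne (0 : E)
      have h1 : (0 : E →L[ℝ] E) v = (-ContinuousLinearMap.id ℝ E) v :=
        congrArg (fun f : E →L[ℝ] E => f v) hder
      apply hv
      have h2 : (0 : E) = - v := h1
      rw [← neg_eq_zero]
      exact h2.symm
    have h1 := hd.hasMFDerivAt
    rw [hder] at h1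
    have h2 := h1.2
    have h3 : writtenInExtChartAt 𝓘(ℝ, E) 𝓘(ℝ, E) x s =
        (fun v => extChartAt 𝓘(ℝ, E) x (s (psi x v))) := by
      funext v
      simp only [writtenInExtChartAt, hfix, Function.comp_apply]
    rw [h3, ModelWithCorners.range_eq_univ, hasFDerivWithinAt_univ] at h2
    exact h2

theorem sym_of_mfderiv [CompactSpace M] [PreconnectedSpace M] (s : M → M) (x : M)
    (hs : Isometry s) (hfix : s x = x)
    (hder : mfderiv 𝓘(ℝ, E) 𝓘(ℝ, E) s x = -ContinuousLinearMap.id ℝ E) :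
    ∃ s' : M ≃ᵢ M, (∀ y, s' y = s y) ∧ IsSymmetryAt x s' := by
  obtain ⟨R, G⟩ := riemannian_geo (E := E) (M := M)
  obtain ⟨c, hc1, hc2, hc3, hc4⟩ := exists_loc' (E := E) x
  have hd := hasFDerivAt_of_mfderiv s x hfix hder
  rw [← hc4, ← hc2, ← hc3] at hd
  have h1 := reflect c (fun x y => exists_midpt (E := E) x y) s hs (by rw [hc1, hfix]) hd
  rw [hc1] at h1
  let s' : M ≃ᵢ M := ⟨Equiv.ofBijective s ⟨hs.injective, surjective_of_isometry hs⟩, hs⟩
  have hs' : ∀ y, s' y = s y := fun y => rfl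
  exact ⟨s', hs', isSymmetryAt_of_reflect G s' hfix h1⟩

end

end Pool.Agent.V8H75.Nag
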