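import Pool.Agent.V8H75.Nag.Alg

/-! Without 2-torsion in integral homology the mod 2 Betti numbers are at most the real ones. -/

set_option autoImplicit false

namespace Pool.Agent.V8H75.Nag

open Pool.Agent.Helper381 Pool.Agent.TH592.Nag Module

noncomputable section

/-- change of coefficients -/
abbrev cm {S R R' : Type} [AddCommGroup R] [AddCommGroup R'] (l : R →+ R') : (S →₀ R) →+ (S →₀ R') :=
  Finsupp.mapRange.addMonoidHom l

/-- reduction mod 2 -/
abbrev rd : ℤ →+ ZMod 2 := Int.castAddHom (ZMod 2)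

theorem cm_apply {S R R' : Type} [AddCommGroup R] [AddCommGroup R'] (l : R →+ R') (c : S →₀ R)
    (s : S) : cm l c s = l (c s) := rfl

theorem exists_lift {S : Type} (c : S →₀ ZMod 2) : ∃ z : S →₀ ℤ, cm rd z = c := by
  induction c using Finsupp.induction_linear with
  | zero => exact ⟨0, map_zero _⟩
  | add f g hf hg =>
    obtain ⟨a, rfl⟩ := hf
    obtain ⟨b, rfl⟩ := hg
    exact ⟨a + b, map_add _ _ _⟩
  | single s r =>
    obtain ⟨m, rfl⟩ := ZMod.intCast_surjective r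
    exact ⟨Finsupp.single s m, Finsupp.mapRange_single (hf := map_zero rd)⟩

theorem exists_half {S : Type} (c : S →₀ ℤ) (h : cm rd c = 0) : ∃ w : S →₀ ℤ, c = (2 : ℤ) • w := by
  have h1 : ∀ s, (2 : ℤ) ∣ c s := by
    intro s
    have h2 : cm rd c s = 0 := by rw [h]; rfl
    rw [cm_apply] at h2
    exact (ZMod.intCast_zmod_eq_zero_iff_dvd (c s) 2).mp h2
  refine ⟨Finsupp.mapRange (fun a : ℤ => a / 2) (by norm_num) c, ?_⟩
  ext s
  rw [Finsupp.smul_apply, Finsupp.mapRange_apply, smul_eq_mul]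
  exact (Int.mul_ediv_cancel' (h1 s)).symm

theorem cm_two {S : Type} (v : S →₀ ℤ) : cm rd ((2 : ℤ) • v) = 0 := by
  rw [map_zsmul]
  ext s
  rw [Finsupp.smul_apply, Finsupp.zero_apply, cm_apply]
  have : ((2 : ℤ) : ZMod 2) = 0 := rfl
  rw [zsmul_eq_mul, this, zero_mul]

variable {X : Type} [TopologicalSpace X]

theorem lift_cycle
    (hT : ∀ n, ∀ w : Sing X n →₀ ℤ, w ∈ cyc ℤ X n → (2 : ℤ) • w ∈ bou ℤ X n → w ∈ bou ℤ X n)
    (n : ℕ) (c : Sing X n →₀ ZMod 2) (hc : c ∈ cyc (ZMod 2) X n) :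
    ∃ z ∈ cyc ℤ X n, cm rd z = c := by
  obtain ⟨y, hy⟩ := exists_lift c
  cases n with
  | zero => exact ⟨y, trivial, hy⟩
  | succ n =>
    have h1 : cm rd (bd ℤ X n y) = 0 := by
      have h2 : bd (ZMod 2) X n c = 0 := hc
      rw [mapRange_bd, hy, h2]
    obtain ⟨w, hw⟩ := exists_half _ h1
    have hwc : w ∈ cyc ℤ X n := by
      cases n with
      | zero => trivial
      | succ n =>
        have h3 : (2 : ℤ) • bd ℤ X n w = 0 := by
          rw [← map_smul, ← hw, bd_bd]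
        have h4 : bd ℤ X n w = 0 := by
          ext s
          have h5 := DFunLike.congr_fun h3 s
          rw [Finsupp.smul_apply, Finsupp.zero_apply, smul_eq_mul] at h5
          rw [Finsupp.zero_apply]
          omega
        exact h4
    obtain ⟨v, hv⟩ := hT n w hwc ⟨y, hw⟩
    refine ⟨y - (2 : ℤ) • v, ?_, ?_⟩
    · change bd ℤ X n (y - (2 : ℤ) • v) = 0
      rw [map_sub, map_smul, hv, hw, sub_self]
    · rw [map_sub, cm_two, sub_zero, hy]

/-- integral independence of lifts of a mod 2 basis -/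
theorem int_indep
    (hT : ∀ n, ∀ w : Sing X n →₀ ℤ, w ∈ cyc ℤ X n → (2 : ℤ) • w ∈ bou ℤ X n → w ∈ bou ℤ X n)
    (n m : ℕ) (z : Fin m → (Sing X n →₀ ℤ)) (hz : ∀ j, z j ∈ cyc ℤ X n)
    (h2 : ∀ a : Fin m → ZMod 2, (∑ j, a j • cm rd (z j)) ∈ bou (ZMod 2) X n → a = 0)
    (N : ℕ) : ∀ a : Fin m → ℤ, (∑ j, (a j).natAbs) ≤ N → (∑ j, a j • z j) ∈ bou ℤ X n → a = 0 := by
  induction N with
  | zero =>
    intro a ha _
    funext j
    have h3 : (∑ j, (a j).natAbs) = 0 := by omega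
    rw [Finset.sum_eq_zero_iff] at h3
    exact Int.natAbs_eq_zero.mp (h3 j (Finset.mem_univ _))
  | succ N ih =>
    intro a ha hb
    by_cases h0 : a = 0
    · exact h0
    obtain ⟨y, hy⟩ := hb
    have h3 : (fun j => ((a j : ℤ) : ZMod 2)) = 0 := by
      apply h2
      refine ⟨cm rd y, ?_⟩
      rw [← mapRange_bd, hy, map_sum]
      refine Finset.sum_congr rfl fun j _ => ?_
      rw [map_zsmul]
      ext s
      rw [Finsupp.smul_apply, Finsupp.smul_apply, zsmul_eq_mul, smul_eq_mul]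
    have h4 : ∀ j, (2 : ℤ) ∣ a j := fun j =>
      (ZMod.intCast_zmod_eq_zero_iff_dvd (a j) 2).mp (congrFun h3 j)
    choose b hb using h4
    have h5 : (∑ j, b j • z j) ∈ bou ℤ X n := by
      apply hT
      · exact Submodule.sum_mem _ fun j _ => Submodule.smul_mem _ _ (hz j)
      · refine ⟨y, ?_⟩
        rw [hy, Finset.smul_sum]
        refine Finset.sum_congr rfl fun j _ => ?_
        rw [smul_smul, ← hb j]
    have h6 : ∀ j, (a j).natAbs = 2 * (b j).natAbs := by
      intro j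
      rw [hb j, Int.natAbs_mul]
      rfl
    have h7 : (∑ j, (a j).natAbs) = 2 * ∑ j, (b j).natAbs := by
      rw [Finset.mul_sum]
      exact Finset.sum_congr rfl fun j _ => h6 j
    have h8 : 0 < ∑ j, (a j).natAbs := by
      rw [Nat.pos_iff_ne_zero]
      intro h9
      rw [Finset.sum_eq_zero_iff] at h9
      exact h0 (funext fun j => Int.natAbs_eq_zero.mp (h9 j (Finset.mem_univ _)))
    have h9 : b = 0 := ih b (by omega) h5
    funext j
    rw [hb j, h9]
    simp

/-- clearing denominators -/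
theorem clear_den {S : Type} (y : S →₀ ℚ) :
    ∃ N : ℤ, N ≠ 0 ∧ ∃ x : S →₀ ℤ, N • y = cm (Int.castAddHom ℚ) x := by
  induction y using Finsupp.induction_linear with
  | zero => exact ⟨1, one_ne_zero, 0, by simp⟩
  | add f g hf hg =>
    obtain ⟨N1, h1, x1, e1⟩ := hf
    obtain ⟨N2, h2, x2, e2⟩ := hg
    refine ⟨N1 * N2, mul_ne_zero h1 h2, N2 • x1 + N1 • x2, ?_⟩
    rw [map_add, map_zsmul, map_zsmul, ← e1, ← e2, smul_add, smul_smul, smul_smul, mul_comm N2 N1]
  | single s q =>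
    refine ⟨q.den, by exact_mod_cast q.den_nz, Finsupp.single s q.num, ?_⟩
    have h1 : cm (Int.castAddHom ℚ) (Finsupp.single s q.num) = Finsupp.single s (q.num : ℚ) :=
      Finsupp.mapRange_single (hf := map_zero (Int.castAddHom ℚ))
    rw [h1, Finsupp.smul_single, zsmul_eq_mul]
    congr 1
    push_cast
    rw [mul_comm]
    exact Rat.mul_den_eq_num q

theorem clear_den' {m : ℕ} (q : Fin m → ℚ) :
    ∃ N : ℤ, N ≠ 0 ∧ ∃ x : Fin m → ℤ, ∀ j, (N : ℚ) * q j = x j := by
  obtain ⟨N, hN, x, hx⟩ := clear_den (Finsupp.equivFunOnFinite.symm q)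
  refine ⟨N, hN, x, fun j => ?_⟩
  have := DFunLike.congr_fun hx j
  rw [Finsupp.smul_apply, zsmul_eq_mul, cm_apply] at this
  exact this

theorem cm_int_injective {S : Type} : Function.Injective (cm (S := S) (Int.castAddHom ℚ)) := by
  intro x y h
  ext s
  have := DFunLike.congr_fun h s
  rw [cm_apply, cm_apply] at this
  exact Int.cast_injective (α := ℚ) this

/-- rational independence -/
theorem rat_indep (n m : ℕ) (z : Fin m → (Sing X n →₀ ℤ))
    (h : ∀ a : Fin m → ℤ, (∑ j, a j • z j) ∈ bou ℤ X n → a = 0)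
    (q : Fin m → ℚ) (hq : (∑ j, q j • cm (Int.castAddHom ℚ) (z j)) ∈ bou ℚ X n) : q = 0 := by
  obtain ⟨y, hy⟩ := hq
  obtain ⟨N, hN, x, hx⟩ := clear_den' q
  obtain ⟨L, hL, w, hw⟩ := clear_den y
  have h1 : (fun j => L * x j) = 0 := by
    apply h
    refine ⟨N • w, ?_⟩
    apply cm_int_injective
    rw [mapRange_bd, map_zsmul, ← hw, map_zsmul, map_zsmul, hy, map_sum, Finset.smul_sum,
      Finset.smul_sum]
    refine Finset.sum_congr rfl fun j _ => ?_
    rw [map_zsmul]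
    ext s
    simp only [Finsupp.smul_apply, zsmul_eq_mul, smul_eq_mul]
    push_cast
    rw [← hx j]
    ring
  funext j
  have h2 : L * x j = 0 := congrFun h1 j
  have h3 : x j = 0 := by
    rcases mul_eq_zero.mp h2 with h | h
    · exact absurd h hL
    · exact h
  have h4 := hx j
  rw [h3, Int.cast_zero] at h4
  rcases mul_eq_zero.mp h4 with h | h
  · exact absurd (by exact_mod_cast h) hN
  · exact h

/-- real independence -/
theorem real_indep (n m : ℕ) (z : Fin m → (Sing X n →₀ ℤ))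
    (h : ∀ a : Fin m → ℤ, (∑ j, a j • z j) ∈ bou ℤ X n → a = 0)
    (r : Fin m → ℝ) (hr : (∑ j, r j • cm (Int.castAddHom ℝ) (z j)) ∈ bou ℝ X n) : r = 0 := by
  by_contra h0
  obtain ⟨j0, hj0⟩ := Function.ne_iff.mp h0
  have h1 : ¬ ∀ φ : Dual ℚ ℝ, φ (r j0) = 0 := by
    intro h2
    exact hj0 ((Module.forall_dual_apply_eq_zero_iff ℚ (r j0)).mp h2)
  push Not at h1
  obtain ⟨φ, hφ⟩ := h1
  obtain ⟨y, hy⟩ := hr
  have h2 : (fun j => φ (r j)) = 0 := by
    apply rat_indep n m z h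
    refine ⟨cm φ.toAddMonoidHom y, ?_⟩
    rw [← mapRange_bd, hy, map_sum]
    refine Finset.sum_congr rfl fun j _ => ?_
    ext s
    rw [cm_apply, Finsupp.smul_apply, Finsupp.smul_apply, cm_apply, cm_apply, smul_eq_mul,
      smul_eq_mul]
    change φ (r j * ((z j s : ℤ) : ℝ)) = φ (r j) * ((z j s : ℤ) : ℚ)
    have h3 : r j * ((z j s : ℤ) : ℝ) = (z j s) • r j := by rw [zsmul_eq_mul, mul_comm]
    rw [h3, map_zsmul, zsmul_eq_mul, mul_comm]
  exact hφ (congrFun h2 j0)

theorem cyc_cm {R R' : Type} [CommRing R] [CommRing R'] (l : R →+ R') (n : ℕ) (z : Sing X n →₀ R)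
    (hz : z ∈ cyc R X n) : cm l z ∈ cyc R' X n := by
  cases n with
  | zero => trivial
  | succ n =>
    have h1 : bd R X n z = 0 := hz
    change bd R' X n (cm l z) = 0
    rw [← mapRange_bd, h1, map_zero]

theorem hm_tor (h : ∀ n, ∀ g : Hm ℤ X n, (2 : ℤ) • g = 0 → g = 0) (n : ℕ) (w : Sing X n →₀ ℤ)
    (hw : w ∈ cyc ℤ X n) (hb : (2 : ℤ) • w ∈ bou ℤ X n) : w ∈ bou ℤ X n := by
  have h1 := h n (Submodule.Quotient.mk ⟨w, hw⟩) (by
    rw [← Submodule.Quotient.mk_smul, Submodule.Quotient.mk_eq_zero]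
    exact hb)
  rw [Submodule.Quotient.mk_eq_zero] at h1
  exact h1

theorem mk_sum_eq_zero {R : Type} [CommRing R] (n m : ℕ) (z : Fin m → cyc R X n) (a : Fin m → R) :
    ∑ j, a j • (Submodule.Quotient.mk (z j) : Hm R X n) = 0 ↔
      (∑ j, a j • (z j).1) ∈ bou R X n := by
  have h1 : ∑ j, a j • (Submodule.Quotient.mk (z j) : Hm R X n) =
      Submodule.Quotient.mk (∑ j, a j • z j) := by
    rw [← Submodule.mkQ_apply, map_sum]
    refine Finset.sum_congr rfl fun j _ => ?_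
    rw [map_smul, Submodule.mkQ_apply]
  rw [h1, Submodule.Quotient.mk_eq_zero]
  have h2 : (∑ j, a j • z j : cyc R X n).1 = ∑ j, a j • (z j).1 := by
    rw [Submodule.coe_sum]
    rfl
  change (∑ j, a j • z j : cyc R X n).1 ∈ bou R X n ↔ _
  rw [h2]

theorem finrank_two_le_real (h : ∀ n, ∀ g : Hm ℤ X n, (2 : ℤ) • g = 0 → g = 0) (n : ℕ)
    (hf : Module.Finite ℝ (Hm ℝ X n)) :
    finrank (ZMod 2) (Hm (ZMod 2) X n) ≤ finrank ℝ (Hm ℝ X n) := by
  have : Fact (Nat.Prime 2) := ⟨Nat.prime_two⟩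
  by_cases hfin : Module.Finite (ZMod 2) (Hm (ZMod 2) X n)
  swap
  · rw [finrank_of_not_finite hfin]
    exact Nat.zero_le _
  have hT := hm_tor h
  let b := Module.finBasis (ZMod 2) (Hm (ZMod 2) X n)
  have hc : ∀ j, ∃ c : cyc (ZMod 2) X n, (Submodule.Quotient.mk c : Hm (ZMod 2) X n) = b j :=
    fun j => Submodule.Quotient.mk_surjective _ (b j)
  choose c hc using hc
  have hz : ∀ j, ∃ z ∈ cyc ℤ X n, cm rd z = (c j).1 := fun j => lift_cycle hT n (c j).1 (c j).2
  choose z hz1 hz2 using hz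
  have h2 : ∀ a : Fin (finrank (ZMod 2) (Hm (ZMod 2) X n)) → ZMod 2,
      (∑ j, a j • cm rd (z j)) ∈ bou (ZMod 2) X n → a = 0 := by
    intro a ha
    have h3 : ∑ j, a j • (c j).1 ∈ bou (ZMod 2) X n := by
      have h4 : ∑ j, a j • (c j).1 = ∑ j, a j • cm rd (z j) :=
        Finset.sum_congr rfl fun j _ => by rw [hz2 j]
      rw [h4]; exact ha
    rw [← mk_sum_eq_zero] at h3
    simp only [hc] at h3
    funext j
    exact Fintype.linearIndependent_iff.mp b.linearIndependent a h3 j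
  have h3 := real_indep n _ z (fun a ha => int_indep hT n _ z hz1 h2 _ a le_rfl ha)
  have h4 : LinearIndependent ℝ (fun j => (Submodule.Quotient.mk
      ⟨cm (Int.castAddHom ℝ) (z j), cyc_cm _ n _ (hz1 j)⟩ : Hm ℝ X n)) := by
    rw [Fintype.linearIndependent_iff]
    intro r hr
    rw [mk_sum_eq_zero] at hr
    exact fun j => congrFun (h3 r hr) j
  have h5 := h4.fintype_card_le_finrank
  rwa [Fintype.card_fin] at h5

end

end Pool.Agent.V8H75.Nag
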