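import Pool.Agent.Helper381.Small
import Pool.Agent.Helper775.Tight.Compare
import Pool.Agent.Helper775.Tight.Dim

/-! Mod 2 singular cohomology of a compact manifold vanishes above the dimension. -/

set_option autoImplicit false

namespace Pool.Agent.V8H75.Nag

open Pool.Agent.Helper381 Module Topology

section Small

variable {k : Type} [CommRing k] {X : Type} [TopologicalSpace X] (𝒞 : Set (Set X))

/-- a cocycle which is a coboundary on small simplices is a coboundary -/
theorem cobound_of_small (hopen : ∀ C ∈ 𝒞, IsOpen C) (hcov : ∀ x : X, ∃ C ∈ 𝒞, x ∈ C) (n : ℕ)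
    (f : Sing X (n + 1) → k) (hf : altd k (sface (X := X)) (n + 1) f = 0) (h : Sing X n → k)
    (hh : ∀ σ ∈ smallSet 𝒞 (n + 1), f σ = altd k (sface (X := X)) n h σ) :
    ∃ g, altd k (sface (X := X)) n g = f := by
  set f' : Sing X (n + 1) → k := f - altd k (sface (X := X)) n h with hf'
  have hf'0 : altd k (sface (X := X)) (n + 1) f' = 0 := by
    rw [hf', map_sub, hf, altd_altd (sface (X := X)) (fun n i j σ h => sface_sface n i j σ h),
      sub_zero]
  refine ⟨h + fun σ => evc f' (DD 𝒞 n (Finsupp.single σ 1)), ?_⟩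
  rw [map_add]
  have key : altd k (sface (X := X)) n (fun σ => evc f' (DD 𝒞 n (Finsupp.single σ 1))) = f' := by
    funext σ
    rw [altd_eq_ev]
    have h1 : Finsupp.linearCombination ℤ (fun σ => evc f' (DD 𝒞 n (Finsupp.single σ 1))) =
        (evc f').comp (DD 𝒞 n) := by
      apply Finsupp.lhom_ext'
      intro σ
      apply LinearMap.ext_ring
      simp only [LinearMap.comp_apply, Finsupp.lsingle_apply, Finsupp.linearCombination_single,
        one_smul]
    rw [h1, LinearMap.comp_apply]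
    have h2 : f' σ = evc f' (rho 𝒞 (n + 1) (Finsupp.single σ 1)) +
        evc f' (sbd X (n + 1) (DD 𝒞 (n + 1) (Finsupp.single σ 1))) +
        evc f' (DD 𝒞 n (sbd X n (Finsupp.single σ 1))) := by
      rw [rho_succ, map_sub, map_sub, evc_single]
      ring
    have h3 : evc f' (sbd X (n + 1) (DD 𝒞 (n + 1) (Finsupp.single σ 1))) = 0 := by
      rw [← ev_altd, hf'0]
      simp
    have h4 : evc f' (rho 𝒞 (n + 1) (Finsupp.single σ 1)) = 0 := by
      have h5 := evc_congr (smallSet 𝒞 (n + 1)) f' 0 (by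
        intro σ hσ
        rw [hf', Pi.sub_apply, hh σ hσ, sub_self]
        rfl) _ (rho_small 𝒞 hopen hcov (n + 1) (Finsupp.single σ 1))
      refine h5.trans ?_
      simp [evc]
    rw [h2, h3, h4, zero_add, zero_add]
  rw [key, hf', add_sub_cancel]

end Small

open Pool.Agent.Helper775.Tight in
/-- local embeddings -/
theorem exists_local_embed' {D : ℕ} {P : Type} [MetricSpace P]
    [ChartedSpace (EuclideanSpace ℝ (Fin D)) P] (q : P) : ∃ K ∈ 𝓝 q, IsCompact K ∧
    ∃ φ : P → (Fin D → ℝ), ContinuousOn φ K ∧ Set.InjOn φ K := by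
  let φ := chartAt (EuclideanSpace ℝ (Fin D)) q
  have hq : q ∈ φ.source := mem_chart_source _ q
  obtain ⟨r, hr, hrt⟩ := Metric.nhds_basis_closedBall.mem_iff.1
    (φ.open_target.mem_nhds (φ.map_source hq))
  refine ⟨φ.symm '' Metric.closedBall (φ q) r, ?_, ?_, fun x => WithLp.ofLp (φ x), ?_, ?_⟩
  · have h1 : φ.source ∩ φ ⁻¹' (Metric.ball (φ q) r) ∈ 𝓝 q :=
      (φ.isOpen_inter_preimage Metric.isOpen_ball).mem_nhds ⟨hq, Metric.mem_ball_self hr⟩
    refine Filter.mem_of_superset h1 ?_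
    rintro x ⟨hx, hx2⟩
    exact ⟨φ x, Metric.ball_subset_closedBall hx2, φ.left_inv hx⟩
  · exact (isCompact_closedBall _ _).image_of_continuousOn (φ.continuousOn_symm.mono hrt)
  · have h2 : φ.symm '' Metric.closedBall (φ q) r ⊆ φ.source := by
      rintro _ ⟨y, hy, rfl⟩
      exact φ.map_target (hrt hy)
    exact (PiLp.continuous_ofLp 2 _).comp_continuousOn (φ.continuousOn.mono h2)
  · have h2 : φ.symm '' Metric.closedBall (φ q) r ⊆ φ.source := by
      rintro _ ⟨y, hy, rfl⟩
      exact φ.map_target (hrt hy)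
    intro x hx y hy hxy
    exact φ.injOn (h2 hx) (h2 hy) (WithLp.ofLp_injective 2 hxy)

open Pool.Agent.Helper775.Tight in
theorem vanish_aux {D : ℕ} {P : Type} [MetricSpace P] [CompactSpace P]
    [ChartedSpace (EuclideanSpace ℝ (Fin D)) P] (n : ℕ) (hn : D + 1 ≤ n + 1) (hn2 : 2 ≤ n + 1)
    (s : SCh P) (hs : ∀ σ, sdf s (n + 2) σ = 0) :
    ∃ r : SCh P, ∀ z : P, ∃ W ∈ 𝓝 z, ∀ σ : Pool.Agent.Helper775.Tight.Sing P (n + 1),
      Set.range σ ⊆ W → s (n + 1) σ = sdf r (n + 1) σ := by
  have hcoc : (Sg P).Coc Set.univ (n + 2) s := by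
    intro z _
    exact ⟨Set.univ, Filter.univ_mem, fun σ _ => hs σ⟩
  obtain ⟨c, hc, t, ht⟩ := theta_surj (m := D) isCompact_univ hcoc
  have hex : (AS P).Ex Set.univ (n + 2) :=
    ex_of_locally_embed (m := D) exists_local_embed' isCompact_univ (by omega) (by omega)
  obtain ⟨b, hb⟩ := hex c hc
  refine ⟨t + theta b, fun z => ?_⟩
  have h1 := ht z (Set.mem_univ z)
  have h2 := Theta.mem z (n + 2) _ (hb z (Set.mem_univ z))
  have h3 := Theta.comm z (n + 2) b
  have h4 : s - SDD (t + theta b) ∈ SNz z (n + 2) := by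
    have h5 := sub_mem (add_mem h1 h2) h3
    have h6 : s - theta c - (Sg P).D t + Theta.f (c - (AS P).D b) -
        ((Sg P).D (Theta.f b) - Theta.f ((AS P).D b)) = s - SDD (t + theta b) := by
      rw [map_sub, map_add]
      change s - theta c - SDD t + (theta c - theta ((AS P).D b)) -
        (SDD (theta b) - theta ((AS P).D b)) = s - (SDD t + SDD (theta b))
      abel
    rw [h6] at h5
    exact h5
  obtain ⟨W, hW, h⟩ := h4
  refine ⟨W, hW, fun σ hσ => ?_⟩
  have := h σ hσ
  exact sub_eq_zero.mp this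

theorem altd_two {P : Type} [TopologicalSpace P] (n : ℕ)
    (f : Pool.Agent.Helper775.Tight.SCh P) (σ : Sing P (n + 1)) :
    altd (ZMod 2) (sface (X := P)) n (f n) σ = Pool.Agent.Helper775.Tight.sdf f (n + 1) σ := by
  rw [altd_apply]
  change _ = ∑ i : Fin (n + 2), f n (Pool.Agent.Helper775.Tight.sface n i σ)
  refine Finset.sum_congr rfl fun i _ => ?_
  have : (-1 : ZMod 2) = 1 := rfl
  rw [this, one_pow, one_mul]
  rfl

/-- singular cohomology mod 2 of a compact manifold vanishes above the dimension -/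
theorem vanish {D : ℕ} {P : Type} [MetricSpace P] [CompactSpace P]
    [ChartedSpace (EuclideanSpace ℝ (Fin D)) P] (n : ℕ) (hn : D + 1 ≤ n) (hn2 : 2 ≤ n) :
    finrank (ZMod 2) (SingCoh (ZMod 2) P n) = 0 := by
  obtain ⟨n, rfl⟩ : ∃ m, n = m + 1 := ⟨n - 1, by omega⟩
  have : Fact (Nat.Prime 2) := ⟨Nat.prime_two⟩
  have hsub : Subsingleton (SingCoh (ZMod 2) P (n + 1)) := by
    apply Submodule.Quotient.subsingleton_iff.mpr
    rw [eq_top_iff]
    rintro ⟨f, hf⟩ _
    change f ∈ LinearMap.range (altd (ZMod 2) (sface (X := P)) n)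
    rw [LinearMap.mem_ker] at hf
    have hs : ∀ σ, Pool.Agent.Helper775.Tight.sdf (Function.update 0 (n + 1) f) (n + 2) σ = 0 := by
      intro σ
      rw [← altd_two, Function.update_self, hf]
      rfl
    obtain ⟨r, hr⟩ := vanish_aux n hn hn2 _ hs
    refine LinearMap.mem_range.mpr (cobound_of_small
      {W : Set P | IsOpen W ∧ ∀ σ : Sing P (n + 1), Set.range σ ⊆ W →
        f σ = altd (ZMod 2) (sface (X := P)) n (r n) σ} (fun C hC => hC.1) ?_ n f hf (r n) ?_)
    · intro x
      obtain ⟨W, hW, h⟩ := hr x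
      obtain ⟨U, hUW, hU, hxU⟩ := mem_nhds_iff.1 hW
      refine ⟨U, ⟨hU, fun σ hσ => ?_⟩, hxU⟩
      have h1 := h σ (hσ.trans hUW)
      rw [Function.update_self] at h1
      rw [altd_two]
      exact h1
    · rintro σ ⟨C, hC, hσ⟩
      exact hC.2 σ hσ
  exact finrank_zero_of_subsingleton

end Pool.Agent.V8H75.Nag
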