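import Pool.Agent.Helper381.Main
import Pool.Agent.V8H75.Nag.Sym2
import Pool.Agent.V8H75.Nag.Tor
import Pool.Agent.V8H75.Nag.Van

/-! Two-numbers and 2-torsion: assembly. -/

set_option autoImplicit false

namespace Pool.Agent.V8H75.Nag

open Pool.Agent.Helper381 Pool.Agent.TH592.Nag Module Topology Bundle
open scoped Manifold ContDiff

theorem sum_two_le_real {M : Type} [TopologicalSpace M]
    (h : ∀ n, ∀ g : Hm ℤ M n, (2 : ℤ) • g = 0 → g = 0)
    (hf : ∀ n, Module.Finite ℝ (SingCoh ℝ M n)) (N : ℕ) :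
    ∑ n ∈ Finset.range N, finrank (ZMod 2) (SingCoh (ZMod 2) M n) ≤
      ∑ n ∈ Finset.range N, finrank ℝ (Hm ℝ M n) := by
  have : Fact (Nat.Prime 2) := ⟨Nat.prime_two⟩
  refine Finset.sum_le_sum fun n _ => ?_
  rw [← finrank_hm (ZMod 2) M n]
  exact finrank_two_le_real h n (hm_finite ℝ M n (hf n))

theorem one_le_coh_zero {M : Type} [TopologicalSpace M] [Nonempty M] (k : Type) [Field k]
    (hf : Module.Finite k (SingCoh k M 0)) : 1 ≤ finrank k (SingCoh k M 0) := by
  have hone : (fun _ : Sing M 0 => (1 : k)) ∈ LinearMap.ker (altd k (sface (X := M)) 0) := by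
    rw [LinearMap.mem_ker]
    funext σ
    rw [altd_apply, Fin.sum_univ_two]
    simp
  have hne : (Submodule.Quotient.mk ⟨_, hone⟩ : SingCoh k M 0) ≠ 0 := by
    intro h
    rw [Submodule.Quotient.mk_eq_zero] at h
    have h1 : (fun _ : Sing M 0 => (1 : k)) = 0 := h
    obtain ⟨x⟩ := ‹Nonempty M›
    have h2 := congrFun h1 (ContinuousMap.const _ x)
    exact one_ne_zero h2
  have : Nontrivial (SingCoh k M 0) := ⟨⟨_, _, hne⟩⟩
  exact Module.finrank_pos

theorem sub_of_dim_zero {M : Type} [TopologicalSpace M] [PreconnectedSpace M]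
    [ChartedSpace (EuclideanSpace ℝ (Fin 0)) M] : Subsingleton M := by
  have h1 : ∀ x : M, IsOpen ({x} : Set M) := by
    intro x
    have h2 : ({x} : Set M) = (chartAt (EuclideanSpace ℝ (Fin 0)) x).source := by
      ext y
      constructor
      · rintro rfl
        exact mem_chart_source _ _
      · intro hy
        exact (chartAt (EuclideanSpace ℝ (Fin 0)) x).injOn hy (mem_chart_source _ x)
          (Subsingleton.elim _ _)
    rw [h2]
    exact (chartAt (EuclideanSpace ℝ (Fin 0)) x).open_source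
  have : DiscreteTopology M := discreteTopology_iff_isOpen_singleton.mpr h1
  exact PreconnectedSpace.trivial_of_discrete

theorem main_metric (d : ℕ) (M : Type) [MetricSpace M]
    [ChartedSpace (EuclideanSpace ℝ (Fin d)) M]
    [IsManifold (𝓡 d) ∞ M]
    [RiemannianBundle (fun x : M ↦ TangentSpace (𝓡 d) x)]
    [IsContMDiffRiemannianBundle (𝓡 d) ∞ (EuclideanSpace ℝ (Fin d))
      (fun x : M ↦ TangentSpace (𝓡 d) x)]
    [IsRiemannianManifold (𝓡 d) M]
    [CompactSpace M] [PreconnectedSpace M] [Nonempty M]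
    (s : M → M → M)
    (hs : ∀ x : M, Isometry (s x) ∧ s x x = x ∧
      mfderiv (𝓡 d) (𝓡 d) (s x) x = -ContinuousLinearMap.id ℝ (EuclideanSpace ℝ (Fin d)))
    (A : Finset M) (hA : ∀ x ∈ A, ∀ y ∈ A, s x y = y)
    (h : ∀ n, ∀ g : Hm ℤ M n, (2 : ℤ) • g = 0 → g = 0) :
    A.card ≤ ∑ n ∈ Finset.range (d + 1), finrank ℝ (Hm ℝ M n) := by
  have : Fact (Nat.Prime 2) := ⟨Nat.prime_two⟩
  obtain ⟨R, G⟩ := riemannian_geo (E := EuclideanSpace ℝ (Fin d)) (M := M)
  have hfR := (G.betti_finite ℝ).1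
  have hf2 := (G.betti_finite (ZMod 2)).1
  refine le_trans ?_ (sum_two_le_real h hfR (d + 1))
  have hanti : IsAntipodal (A : Set M) := by
    intro x hx y hy
    obtain ⟨h1, h2, h3⟩ := hs x
    obtain ⟨s', hs', hsym⟩ := sym_of_mfderiv (E := EuclideanSpace ℝ (Fin d)) (s x) x h1 h2 h3
    exact ⟨s', hsym, by rw [hs' y]; exact hA x hx y hy⟩
  have hcard := G.card_le A hanti
  rcases Nat.eq_zero_or_pos d with rfl | hd
  · have hsub : Subsingleton M := sub_of_dim_zero
    have h1 : A.card ≤ 1 := Finset.card_le_one_of_subsingleton A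
    rw [Finset.sum_range_one]
    exact h1.trans (one_le_coh_zero (ZMod 2) (hf2 0))
  · rw [totalBetti_eq (d + 1) hf2 (fun n hn => vanish n hn (by omega)), Nat.cast_le] at hcard
    exact hcard

theorem edist_ne_top {M : Type} [EMetricSpace M] [PreconnectedSpace M] (x y : M) :
    edist x y ≠ ⊤ := by
  have h1 : IsClopen (Metric.eball x ⊤) := ⟨Metric.isClosed_eball_top, Metric.isOpen_eball⟩
  have h2 : Metric.eball x ⊤ = Set.univ :=
    h1.eq_univ ⟨x, Metric.mem_eball_self (by simp)⟩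
  have h3 : y ∈ Metric.eball x ⊤ := by rw [h2]; trivial
  rw [Metric.mem_eball, edist_comm] at h3
  exact h3.ne

theorem main_emetric (d : ℕ) (M : Type) [EMetricSpace M]
    [ChartedSpace (EuclideanSpace ℝ (Fin d)) M]
    [IsManifold (𝓡 d) ∞ M]
    [RiemannianBundle (fun x : M ↦ TangentSpace (𝓡 d) x)]
    [IsContMDiffRiemannianBundle (𝓡 d) ∞ (EuclideanSpace ℝ (Fin d))
      (fun x : M ↦ TangentSpace (𝓡 d) x)]
    [IsRiemannianManifold (𝓡 d) M]
    [CompactSpace M] [PreconnectedSpace M] [Nonempty M]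
    (s : M → M → M)
    (hs : ∀ x : M, Isometry (s x) ∧ s x x = x ∧
      mfderiv (𝓡 d) (𝓡 d) (s x) x = -ContinuousLinearMap.id ℝ (EuclideanSpace ℝ (Fin d)))
    (A : Finset M) (hA : ∀ x ∈ A, ∀ y ∈ A, s x y = y)
    (h : ∀ n, ∀ g : Hm ℤ M n, (2 : ℤ) • g = 0 → g = 0) :
    A.card ≤ ∑ n ∈ Finset.range (d + 1), finrank ℝ (Hm ℝ M n) := by
  let _ := EMetricSpace.toMetricSpace (edist_ne_top (M := M))
  exact main_metric d M s hs A hA h

theorem main_homology (d : ℕ) (M : Type) [EMetricSpace M]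
    [ChartedSpace (EuclideanSpace ℝ (Fin d)) M]
    [IsManifold (𝓡 d) ∞ M]
    [RiemannianBundle (fun x : M ↦ TangentSpace (𝓡 d) x)]
    [IsContMDiffRiemannianBundle (𝓡 d) ∞ (EuclideanSpace ℝ (Fin d))
      (fun x : M ↦ TangentSpace (𝓡 d) x)]
    [IsRiemannianManifold (𝓡 d) M]
    [CompactSpace M] [PreconnectedSpace M] [Nonempty M]
    (s : M → M → M)
    (hs : ∀ x : M, Isometry (s x) ∧ s x x = x ∧
      mfderiv (𝓡 d) (𝓡 d) (s x) x = -ContinuousLinearMap.id ℝ (EuclideanSpace ℝ (Fin d)))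
    (A : Finset M) (hA : ∀ x ∈ A, ∀ y ∈ A, s x y = y)
    (hlt : (∑ i ∈ Finset.range (d + 1),
        Module.finrank ℝ
          ((((AlgebraicTopology.singularHomologyFunctor (ModuleCat.{0} ℝ) i).obj
            (ModuleCat.of ℝ ℝ)).obj (TopCat.of M) : ModuleCat.{0} ℝ) : Type)) < A.card) :
    ∃ i : ℕ, ∃ g : ((((AlgebraicTopology.singularHomologyFunctor (ModuleCat.{0} ℤ) i).obj
            (ModuleCat.of ℤ ℤ)).obj (TopCat.of M) : ModuleCat.{0} ℤ) : Type),
      addOrderOf g = 2 := by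
  by_contra hno
  push Not at hno
  have : Fact (Nat.Prime 2) := ⟨Nat.prime_two⟩
  have h : ∀ n, ∀ g : Hm ℤ M n, (2 : ℤ) • g = 0 → g = 0 := by
    intro n g hg
    obtain ⟨e⟩ := bridge ℤ M n
    by_contra hne
    apply hno n (e.symm g)
    apply addOrderOf_eq_prime
    · rw [two_nsmul, ← map_add]
      rw [two_zsmul] at hg
      rw [hg, map_zero]
    · intro h0
      exact hne (e.symm.map_eq_zero_iff.mp h0)
  have h1 := main_emetric d M s hs A hA h
  have h2 : ∀ n, Module.finrank ℝ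
          ((((AlgebraicTopology.singularHomologyFunctor (ModuleCat.{0} ℝ) n).obj
            (ModuleCat.of ℝ ℝ)).obj (TopCat.of M) : ModuleCat.{0} ℝ) : Type) =
      finrank ℝ (Hm ℝ M n) := by
    intro n
    obtain ⟨e⟩ := bridge ℝ M n
    exact e.finrank_eq
  simp only [h2] at hlt
  omega

end Pool.Agent.V8H75.Nag
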