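import Pool.Agent.TH592.Nag.Bridge
import Pool.Agent.Helper381.LES

/-! Homology with coefficients: duality over a field. -/

set_option autoImplicit false

namespace Pool.Agent.V8H75.Nag

open Pool.Agent.Helper381 Pool.Agent.TH592.Nag Module

noncomputable section

section Pair

variable {R : Type} [CommRing R] {X : Type} [TopologicalSpace X]

theorem ev_bd (n : ℕ) (f : Sing X n → R) (c : Sing X (n + 1) →₀ R) :
    Finsupp.linearCombination R (altd R (sface (X := X)) n f) c =
      Finsupp.linearCombination R f (bd R X n c) := by
  have h : Finsupp.linearCombination R (altd R (sface (X := X)) n f) =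
      Finsupp.linearCombination R f ∘ₗ bd R X n := by
    refine Finsupp.lhom_ext' fun σ => LinearMap.ext_ring ?_
    simp only [LinearMap.comp_apply, Finsupp.lsingle_apply]
    rw [bd, Finsupp.linearCombination_single, Finsupp.linearCombination_single, one_smul, one_smul,
      map_sum, altd_apply]
    refine Finset.sum_congr rfl fun i _ => ?_
    rw [map_zsmul, Finsupp.linearCombination_single, one_smul, zsmul_eq_mul]
    push_cast
    rfl
  exact LinearMap.congr_fun h c

open Classical in
theorem ev_single (n : ℕ) (σ : Sing X n) (c : Sing X n →₀ R) :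
    Finsupp.linearCombination R (fun τ : Sing X n => if τ = σ then (1 : R) else 0) c = c σ := by
  rw [Finsupp.linearCombination_apply, Finsupp.sum]
  simp only [smul_eq_mul, mul_ite, mul_one, mul_zero]
  rw [Finset.sum_ite_eq' c.support σ]
  split_ifs with h
  · rfl
  · rw [Finsupp.notMem_support_iff] at h
    exact h.symm

theorem bd_bd (n : ℕ) (c : Sing X (n + 2) →₀ R) : bd R X n (bd R X (n + 1) c) = 0 := by
  classical
  ext σ
  rw [← ev_single n σ, ← ev_bd, ← ev_bd, altd_altd (sface (X := X)) (fun n i j σ h => sface_sface n i j σ h)]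
  have : Finsupp.linearCombination R (0 : Sing X (n + 2) → R) c = 0 := by
    rw [Finsupp.linearCombination_apply]
    simp
  rw [this]
  rfl

theorem bou_le_cyc (n : ℕ) : bou R X n ≤ cyc R X n := by
  rintro _ ⟨c, rfl⟩
  cases n with
  | zero => trivial
  | succ n => exact bd_bd n c

/-- coefficient homomorphisms commute with the boundary -/
theorem mapRange_bd {R' : Type} [CommRing R'] (l : R →+ R') (n : ℕ) (c : Sing X (n + 1) →₀ R) :
    Finsupp.mapRange.addMonoidHom l (bd R X n c) =
      bd R' X n (Finsupp.mapRange.addMonoidHom l c) := by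
  induction c using Finsupp.induction_linear with
  | zero => simp only [map_zero]
  | add f g hf hg => simp only [map_add, hf, hg]
  | single σ a =>
    have h1 : Finsupp.mapRange.addMonoidHom l (Finsupp.single σ a : Sing X (n + 1) →₀ R) =
        Finsupp.single σ (l a) := Finsupp.mapRange_single (hf := map_zero l)
    rw [h1, bd, bd, Finsupp.linearCombination_single, Finsupp.linearCombination_single,
      Finset.smul_sum, Finset.smul_sum, map_sum]
    refine Finset.sum_congr rfl fun i _ => ?_
    have e1 : a • ((-1 : ℤ) ^ (i : ℕ)) • Finsupp.single (sface n i σ) (1 : R) =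
        ((-1 : ℤ) ^ (i : ℕ)) • Finsupp.single (sface n i σ) a := by
      rw [smul_comm, Finsupp.smul_single, smul_eq_mul, mul_one]
    have e2 : l a • ((-1 : ℤ) ^ (i : ℕ)) • Finsupp.single (sface n i σ) (1 : R') =
        ((-1 : ℤ) ^ (i : ℕ)) • Finsupp.single (sface n i σ) (l a) := by
      rw [smul_comm, Finsupp.smul_single, smul_eq_mul, mul_one]
    rw [e1, e2, map_zsmul]
    congr 1
    exact Finsupp.mapRange_single (hf := map_zero l)

end Pair

section Abstract

variable {k : Type} [Field k] {C : Type} [AddCommGroup C] [Module k C]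

theorem abs_dual (Z B : Submodule k C) (hBZ : B ≤ Z) {D : Type} [AddCommGroup D] [Module k D]
    (K B' : Submodule k D) (e : D ≃ₗ[k] Dual k C)
    (hK : ∀ f, f ∈ K ↔ e f ∈ B.dualAnnihilator)
    (hB : ∀ f, f ∈ B' ↔ e f ∈ Z.dualAnnihilator) :
    Nonempty ((K ⧸ B'.comap K.subtype) ≃ₗ[k] Dual k (Z ⧸ B.submoduleOf Z)) := by
  let L : K →ₗ[k] Dual k Z := Z.dualRestrict ∘ₗ e.toLinearMap ∘ₗ K.subtype
  have hL : ∀ (f : K) (z : Z), L f z = e f.1 z.1 := fun f z => rfl
  have hker : LinearMap.ker L = B'.comap K.subtype := by
    ext f
    rw [LinearMap.mem_ker, Submodule.mem_comap, Submodule.subtype_apply, hB,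
      Submodule.mem_dualAnnihilator]
    constructor
    · intro h z hz
      have := LinearMap.congr_fun h ⟨z, hz⟩
      exact this
    · intro h
      exact LinearMap.ext fun z => h z.1 z.2
  have hrange : LinearMap.range L = (B.submoduleOf Z).dualAnnihilator := by
    ext φ
    rw [Submodule.mem_dualAnnihilator]
    constructor
    · rintro ⟨f, rfl⟩ b hb
      rw [hL]
      have := (hK f.1).mp f.2
      rw [Submodule.mem_dualAnnihilator] at this
      exact this b.1 hb
    · intro h
      obtain ⟨g, hg⟩ := LinearMap.exists_extend φ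
      have hgK : e.symm g ∈ K := by
        rw [hK, e.apply_symm_apply, Submodule.mem_dualAnnihilator]
        intro b hb
        have h1 := LinearMap.congr_fun hg ⟨b, hBZ hb⟩
        have h2 := h ⟨b, hBZ hb⟩ hb
        rw [← h2, ← h1]
        rfl
      refine ⟨⟨e.symm g, hgK⟩, ?_⟩
      apply LinearMap.ext
      intro z
      rw [hL]
      simp only [LinearEquiv.apply_symm_apply]
      rw [← hg]
      rfl
  exact ⟨(Submodule.quotEquivOfEq _ _ hker.symm).trans
    (L.quotKerEquivRange.trans ((LinearEquiv.ofEq _ _ hrange).trans
      (B.submoduleOf Z).dualQuotEquivDualAnnihilator.symm))⟩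

end Abstract

section Dual

variable (k : Type) [Field k] (X : Type) [TopologicalSpace X]

/-- cochains are functionals on chains -/
def cochEquiv (n : ℕ) : (Sing X n → k) ≃ₗ[k] Dual k (Sing X n →₀ k) :=
  Finsupp.llift k k k (Sing X n)

theorem cochEquiv_apply (n : ℕ) (f : Sing X n → k) (c : Sing X n →₀ k) :
    cochEquiv k X n f c = Finsupp.linearCombination k f c := by
  rw [cochEquiv, Finsupp.llift_apply, Finsupp.lift_apply, Finsupp.linearCombination_apply]

theorem cohEquiv (n : ℕ) : Nonempty (SingCoh k X n ≃ₗ[k] Dual k (Hm k X n)) := by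
  classical
  refine abs_dual (cyc k X n) (bou k X n) (bou_le_cyc n)
    (LinearMap.ker (altd k (sface (X := X)) n))
    (cobound k (fun n => Sing X n → k) (fun n => altd k (sface (X := X)) n) n)
    (cochEquiv k X n) ?_ ?_
  · intro f
    rw [LinearMap.mem_ker, Submodule.mem_dualAnnihilator]
    constructor
    · rintro h _ ⟨c, rfl⟩
      rw [cochEquiv_apply, ← ev_bd, h, Finsupp.linearCombination_apply]
      simp
    · intro h
      funext σ
      have h1 : altd k (sface (X := X)) n f σ =
          Finsupp.linearCombination k (altd k (sface (X := X)) n f) (Finsupp.single σ 1) := by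
        rw [Finsupp.linearCombination_single, one_smul]
      rw [h1, ev_bd, ← cochEquiv_apply, h _ ⟨_, rfl⟩]
      rfl
  · intro f
    rw [Submodule.mem_dualAnnihilator]
    cases n with
    | zero =>
      constructor
      · intro h c _
        have h1 : f = 0 := h
        rw [h1, map_zero]
        rfl
      · intro h
        change f = 0
        have h1 : cochEquiv k X 0 f = 0 := LinearMap.ext fun c => h c trivial
        exact (LinearEquiv.map_eq_zero_iff _).mp h1
    | succ n =>
      constructor
      · rintro ⟨g, hg⟩ c hc
        have hg' : altd k (sface (X := X)) n g = f := hg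
        rw [cochEquiv_apply, ← hg', ev_bd]
        have h2 : bd k X n c = 0 := hc
        rw [h2, map_zero]
      · intro h
        have h2 : cochEquiv k X (n + 1) f ∈ (LinearMap.ker (bd k X n)).dualAnnihilator := by
          rw [Submodule.mem_dualAnnihilator]
          exact h
        rw [← LinearMap.range_dualMap_eq_dualAnnihilator_ker] at h2
        obtain ⟨g, hg⟩ := h2
        refine ⟨(cochEquiv k X n).symm g, ?_⟩
        change altd k (sface (X := X)) n ((cochEquiv k X n).symm g) = f
        apply (cochEquiv k X (n + 1)).injective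
        rw [← hg]
        apply LinearMap.ext
        intro c
        rw [cochEquiv_apply, ev_bd, ← cochEquiv_apply, LinearEquiv.apply_symm_apply]
        rfl

theorem hm_finite (n : ℕ) (h : Module.Finite k (SingCoh k X n)) : Module.Finite k (Hm k X n) := by
  obtain ⟨e⟩ := cohEquiv k X n
  have : Module.Finite k (Dual k (Hm k X n)) := Module.Finite.equiv e
  exact Module.finite_dual_iff k |>.mp this

theorem finrank_hm (n : ℕ) :
    finrank k (Hm k X n) = finrank k (SingCoh k X n) := by
  obtain ⟨e⟩ := cohEquiv k X n
  rw [e.finrank_eq, Subspace.dual_finrank_eq]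

end Dual

end

end Pool.Agent.V8H75.Nag
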