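import Pool.Agent.Helper381.Riem3

/-! Isometries with derivative `-id` at a fixed point are symmetries. -/

set_option autoImplicit false

namespace Pool.Agent.V8H75.Nag

open Pool.Agent.Helper381 Metric Set Filter Topology

universe u v

/-- an isometry of a compact metric space into itself is surjective -/
theorem surjective_of_isometry {M : Type u} [MetricSpace M] [CompactSpace M] {s : M → M}
    (hs : Isometry s) : Function.Surjective s := by
  by_contra hcon
  rw [Function.Surjective] at hcon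
  push Not at hcon
  obtain ⟨y, hy⟩ := hcon
  have hcl : IsClosed (range s) := (isCompact_range hs.continuous).isClosed
  have hyc : y ∈ (range s)ᶜ := by
    rintro ⟨x, hx⟩
    exact hy x hx
  obtain ⟨ε, hε, hball⟩ := Metric.isOpen_iff.mp hcl.isOpen_compl y hyc
  have hiter : ∀ n : ℕ, Isometry (s^[n]) := by
    intro n
    induction n with
    | zero => exact isometry_id
    | succ n ih =>
      rw [Function.iterate_succ]
      exact ih.comp hs
  have h1 : ∀ n k : ℕ, ε ≤ dist (s^[n] y) (s^[n + (k + 1)] y) := by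
    intro n k
    rw [Function.iterate_add_apply, (hiter n).dist_eq]
    by_contra h
    push Not at h
    have h2 : s^[k + 1] y ∈ ball y ε := by rw [mem_ball, dist_comm]; exact h
    apply hball h2
    rw [Function.iterate_succ_apply']
    exact ⟨_, rfl⟩
  obtain ⟨a, -, φ, hφ, hlim⟩ := isCompact_univ.tendsto_subseq (x := fun n => s^[n] y)
    (fun n => mem_univ _)
  have hc := hlim.cauchySeq
  rw [Metric.cauchySeq_iff'] at hc
  obtain ⟨N, hN⟩ := hc ε hε
  have h2 := hN (N + 1) (by omega)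
  have h3 : φ N < φ (N + 1) := hφ (by omega)
  obtain ⟨k, hk⟩ : ∃ k, φ (N + 1) = φ N + (k + 1) := ⟨φ (N + 1) - φ N - 1, by omega⟩
  have h4 := h1 (φ N) k
  rw [← hk] at h4
  simp only [Function.comp_apply] at h2
  rw [dist_comm] at h2
  linarith

section Loc

variable {M : Type u} {E : Type v} [MetricSpace M] [NormedAddCommGroup E] [NormedSpace ℝ E]
  (c : Loc M E)

/-- near a fixed point with derivative `-id` an isometry is the geodesic reflection -/
theorem reflect
    (hmid : ∀ x y : M, ∃ m : M, dist x m = dist x y / 2 ∧ dist m y = dist x y / 2)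
    (s : M → M) (hs : Isometry s) (hfix : s (c.ψ c.x₀) = c.ψ c.x₀)
    (hder : HasFDerivAt (fun v => c.φ (s (c.ψ v))) (-ContinuousLinearMap.id ℝ E) c.x₀) :
    ∃ δ > 0, ∀ y, dist (c.ψ c.x₀) y < δ → dist y (s y) = 2 * dist (c.ψ c.x₀) y := by
  obtain ⟨ρ, hρ0, hρ1, hρτ, hsmall⟩ := c.exists_rho
  have hL := c.one_le_L
  set ρ₀ := ρ / (2 + 2 * c.L ^ 2) with hρ₀
  have hρ₀pos : 0 < ρ₀ := by positivity
  have hρρ : ρ = ρ₀ * (2 + 2 * c.L ^ 2) := by rw [hρ₀]; field_simp
  have hρ₀le : ρ₀ ≤ ρ := by rw [hρρ]; nlinarith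
  have hsub1 : ball c.x₀ ρ₀ ⊆ ball c.x₀ c.r₁ := ball_subset_ball (hρ₀le.trans hρ1)
  have hsub : ball c.x₀ ρ₀ ⊆ ball c.x₀ c.r := hsub1.trans c.ball_sub
  have h0 : c.x₀ ∈ ball c.x₀ ρ₀ := mem_ball_self hρ₀pos
  have h01 : c.x₀ ∈ ball c.x₀ c.r₁ := hsub1 h0
  have h0r : c.x₀ ∈ ball c.x₀ c.r := hsub h0
  set x := c.ψ c.x₀ with hx
  have hφx : c.φ x = c.x₀ := c.φψ _ h0r
  -- points near `x` are in the chart ball
  have hchart : ∀ y, dist x y < c.τ → ∃ w ∈ ball c.x₀ c.r, c.ψ w = y ∧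
      ‖w - c.x₀‖ ≤ c.L * dist x y := fun y hy => c.in_chart h01 hy
  -- convexity
  have hconv : ∀ z ∈ c.ψ '' ball c.x₀ ρ₀, ∀ u ∈ ball c.x₀ ρ₀, ∀ v ∈ ball c.x₀ ρ₀,
      dist z (c.ψ ((1 / 2 : ℝ) • (u + v))) ^ 2 ≤
        (dist z (c.ψ u) ^ 2 + dist z (c.ψ v) ^ 2) / 2 := by
    rintro _ ⟨z, hz, rfl⟩ u hu v hv
    have h1 := c.sc_local hmid hρ0 hρ1 hρτ hsmall hz hu hv
    have h2 := c.lower c.x₀ h0r (u - v)
    have h3 := c.lampos
    have h4 : 0 ≤ c.lam * ‖u - v‖ ^ 2 := by positivity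
    linarith
  set δ := min c.τ (ρ₀ / c.L) with hδ
  have hδpos : 0 < δ := lt_min c.τpos (by positivity)
  -- points at distance less than `δ` lie in `ψ '' ball x₀ ρ₀`
  have hin : ∀ y, dist x y < δ → ∃ w ∈ ball c.x₀ ρ₀, c.ψ w = y := by
    intro y hy
    obtain ⟨w, hw, hwy, hle⟩ := hchart y (lt_of_lt_of_le hy (min_le_left _ _))
    refine ⟨w, ?_, hwy⟩
    rw [mem_ball, dist_eq_norm]
    have h1 : dist x y < ρ₀ / c.L := lt_of_lt_of_le hy (min_le_right _ _)
    rw [lt_div_iff₀ (by linarith)] at h1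
    linarith
  refine ⟨δ / 2, by linarith, fun y hy => ?_⟩
  have hsy : dist x (s y) = dist x y := by
    have := hs.dist_eq x y
    rwa [hfix] at this
  set z := s y with hz
  obtain ⟨m, hm1, hm2⟩ := hmid y z
  have hyz : dist y z ≤ 2 * dist x y := by
    have := dist_triangle y x z
    rw [hsy, dist_comm y x] at this
    linarith
  have hxm : dist x m < δ := by
    have := dist_triangle x y m
    rw [hm1] at this
    linarith
  obtain ⟨wy, hwy, hwy'⟩ := hin y (by linarith)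
  obtain ⟨wz, hwz, hwz'⟩ := hin z (by rw [hsy]; linarith)
  obtain ⟨w, hw, hw'⟩ := hin m hxm
  have hyW : y ∈ c.ψ '' ball c.x₀ ρ₀ := ⟨wy, hwy, hwy'⟩
  have hzW : z ∈ c.ψ '' ball c.x₀ ρ₀ := ⟨wz, hwz, hwz'⟩
  -- the function `h`
  let h : E → ℝ := fun v => dist y (c.ψ v) ^ 2 + dist z (c.ψ v) ^ 2
  have hh : ∀ u ∈ ball c.x₀ ρ₀, ∀ v ∈ ball c.x₀ ρ₀, h ((1 / 2 : ℝ) • (u + v)) ≤ (h u + h v) / 2 := by
    intro u hu v hv
    have h1 := hconv y hyW u hu v hv
    have h2 := hconv z hzW u hu v hv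
    simp only [h]
    linarith
  let p : ℕ → E := fun k => c.x₀ + ((1 / 2 : ℝ) ^ k) • (w - c.x₀)
  let q : ℕ → E := fun k => c.x₀ - ((1 / 2 : ℝ) ^ k) • (w - c.x₀)
  have hwn : ‖w - c.x₀‖ < ρ₀ := by rw [← dist_eq_norm]; exact mem_ball.mp hw
  have hpk : ∀ k : ℕ, ((1 / 2 : ℝ)) ^ k ≤ 1 := fun k => pow_le_one₀ (by norm_num) (by norm_num)
  have hpk0 : ∀ k : ℕ, 0 < ((1 / 2 : ℝ)) ^ k := fun k => by positivity
  have hsm : ∀ k : ℕ, ‖((1 / 2 : ℝ) ^ k) • (w - c.x₀)‖ = (1 / 2 : ℝ) ^ k * ‖w - c.x₀‖ := by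
    intro k
    rw [norm_smul, Real.norm_of_nonneg (hpk0 k).le]
  have hpin : ∀ k, p k ∈ ball c.x₀ ρ₀ := by
    intro k
    rw [mem_ball, dist_eq_norm]
    have : p k - c.x₀ = ((1 / 2 : ℝ) ^ k) • (w - c.x₀) := by simp only [p]; abel
    rw [this, hsm]
    have := hpk k
    have := norm_nonneg (w - c.x₀)
    nlinarith
  have hqin : ∀ k, q k ∈ ball c.x₀ ρ₀ := by
    intro k
    rw [mem_ball, dist_eq_norm]
    have : q k - c.x₀ = -(((1 / 2 : ℝ) ^ k) • (w - c.x₀)) := by simp only [q]; abel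
    rw [this, norm_neg, hsm]
    have := hpk k
    have := norm_nonneg (w - c.x₀)
    nlinarith
  -- upper bound along the segment
  have hup : ∀ k, h (p k) - h c.x₀ ≤ (1 / 2 : ℝ) ^ k * (h w - h c.x₀) := by
    intro k
    induction k with
    | zero => simp [p]
    | succ k ih =>
      have h1 := hh (p k) (hpin k) c.x₀ h0
      have h2 : (1 / 2 : ℝ) • (p k + c.x₀) = p (k + 1) := by
        simp only [p, pow_succ]
        module
      rw [h2] at h1
      rw [pow_succ]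
      linarith
  -- the value at the centre
  have hx0 : h c.x₀ = 2 * dist x y ^ 2 := by
    have e1 : dist z (c.ψ c.x₀) = dist x y := by rw [← hx, dist_comm, hsy]
    have e2 : dist y (c.ψ c.x₀) = dist x y := by rw [← hx, dist_comm]
    simp only [h]
    rw [e1, e2]; ring
  set B := dist x y + c.L * c.r with hB
  have hB0 : 0 ≤ B := by
    have := c.rpos
    have : 0 ≤ dist x y := dist_nonneg
    positivity
  -- lower bound
  have hlow : ∀ η > 0, ∃ k, -(2 * B * (c.L * (η * ‖w - c.x₀‖))) * (1 / 2 : ℝ) ^ k ≤ h (p k) - h c.x₀ := by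
    intro η hη
    have h1 := hder.isLittleO
    rw [Asymptotics.isLittleO_iff] at h1
    have h2 := h1 hη
    rw [Metric.eventually_nhds_iff] at h2
    obtain ⟨δ', hδ', h3⟩ := h2
    -- choose k
    obtain ⟨k, hk⟩ := exists_pow_lt_of_lt_one
      (show 0 < min δ' (c.r₁ / (c.L * c.L)) / (ρ₀ + 1) ⊓ (c.τ / (c.L * (ρ₀ + 1))) by
        have := c.r₁pos
        have := c.τpos
        apply lt_min <;> positivity)
      (show (1 / 2 : ℝ) < 1 by norm_num)
    have hk1 := lt_of_lt_of_le hk (min_le_left _ _)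
    have hk2 := lt_of_lt_of_le hk (min_le_right _ _)
    rw [lt_div_iff₀ (by linarith)] at hk1
    rw [lt_div_iff₀ (by positivity)] at hk2
    have hn := norm_nonneg (w - c.x₀)
    have hsmall1 : (1 / 2 : ℝ) ^ k * ‖w - c.x₀‖ < min δ' (c.r₁ / (c.L * c.L)) := by
      refine lt_of_le_of_lt ?_ hk1
      have := hpk0 k
      gcongr
      linarith
    have hk3 := lt_of_lt_of_le hsmall1 (min_le_left _ _)
    have hk4 := lt_of_lt_of_le hsmall1 (min_le_right _ _)
    rw [lt_div_iff₀ (by positivity)] at hk4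
    refine ⟨k, ?_⟩
    have hqx : q k - c.x₀ = -(((1 / 2 : ℝ) ^ k) • (w - c.x₀)) := by simp only [q]; abel
    have hqn : ‖q k - c.x₀‖ = (1 / 2 : ℝ) ^ k * ‖w - c.x₀‖ := by rw [hqx, norm_neg, hsm]
    have h4 := h3 (y := q k) (by rw [dist_eq_norm, hqn]; exact hk3)
    -- the image of `q k`
    have hd1 : dist x (c.ψ (q k)) ≤ c.L * ((1 / 2 : ℝ) ^ k * ‖w - c.x₀‖) := by
      have := c.dist_le h01 (hsub1 (hqin k))
      rwa [hqn] at this
    have hd2 : dist x (s (c.ψ (q k))) = dist x (c.ψ (q k)) := by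
      have := hs.dist_eq x (c.ψ (q k))
      rwa [hfix] at this
    have hd3 : dist x (s (c.ψ (q k))) < c.τ := by
      rw [hd2]
      refine lt_of_le_of_lt hd1 (lt_of_le_of_lt ?_ hk2)
      have := hpk0 k
      have : (1 / 2 : ℝ) ^ k * (c.L * (ρ₀ + 1)) = c.L * ((1 / 2 : ℝ) ^ k * (ρ₀ + 1)) := by ring
      rw [this]
      gcongr
      linarith
    obtain ⟨w', hw'r, hw'e, hw'n⟩ := hchart _ hd3
    have hw'φ : c.φ (s (c.ψ (q k))) = w' := by rw [← hw'e, c.φψ _ hw'r]
    have hw'1 : w' ∈ ball c.x₀ c.r₁ := by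
      rw [mem_ball, dist_eq_norm]
      have e1 : c.L * dist x (s (c.ψ (q k))) ≤ c.L * (c.L * ((1 / 2 : ℝ) ^ k * ‖w - c.x₀‖)) := by
        rw [hd2]; gcongr
      have e2 : c.L * (c.L * ((1 / 2 : ℝ) ^ k * ‖w - c.x₀‖)) =
        (1 / 2 : ℝ) ^ k * ‖w - c.x₀‖ * (c.L * c.L) := by ring
      linarith
    have h5 : ‖w' - p k‖ ≤ η * ((1 / 2 : ℝ) ^ k * ‖w - c.x₀‖) := by
      have e1 : c.φ (s (c.ψ c.x₀)) = c.x₀ := by rw [← hx, hfix, hφx]
      rw [hw'φ, e1, hqx, norm_neg, hsm] at h4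
      have e2 : w' - c.x₀ - (-ContinuousLinearMap.id ℝ E) (-(((1 / 2 : ℝ) ^ k) • (w - c.x₀))) =
          w' - p k := by
        simp only [p, neg_apply, ContinuousLinearMap.id_apply]
        abel
      rwa [e2] at h4
    have h6 : dist (s (c.ψ (q k))) (c.ψ (p k)) ≤ c.L * (η * ((1 / 2 : ℝ) ^ k * ‖w - c.x₀‖)) := by
      rw [← hw'e, dist_comm]
      refine (c.dist_le (hsub1 (hpin k)) hw'1).trans ?_
      gcongr
    set ε := c.L * (η * ((1 / 2 : ℝ) ^ k * ‖w - c.x₀‖)) with hε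
    have hε0 : 0 ≤ ε := by positivity
    set a := dist y (c.ψ (q k)) with ha
    have h7 : a - ε ≤ dist z (c.ψ (p k)) := by
      have e1 : dist z (s (c.ψ (q k))) = a := hs.dist_eq _ _
      have e2 := dist_triangle z (c.ψ (p k)) (s (c.ψ (q k)))
      rw [e1, dist_comm (c.ψ (p k))] at e2
      linarith
    have ha0 : 0 ≤ a := dist_nonneg
    have h8 : a ^ 2 - 2 * a * ε ≤ dist z (c.ψ (p k)) ^ 2 := by
      have hd := dist_nonneg (x := z) (y := c.ψ (p k))
      have haε : 0 ≤ a * ε := mul_nonneg ha0 hε0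
      by_cases hc : a ≤ ε
      · have e1 : a * a ≤ a * ε := mul_le_mul_of_nonneg_left hc ha0
        have e2 := sq_nonneg (dist z (c.ψ (p k)))
        have e3 : a ^ 2 = a * a := sq a
        linarith
      · push Not at hc
        have e1 : (a - ε) ^ 2 ≤ dist z (c.ψ (p k)) ^ 2 := pow_le_pow_left₀ (by linarith) h7 2
        have e2 : (a - ε) ^ 2 = a ^ 2 - 2 * a * ε + ε ^ 2 := by ring
        have e3 := sq_nonneg ε
        linarith
    have h9 := hconv y hyW (p k) (hpin k) (q k) (hqin k)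
    have h10 : (1 / 2 : ℝ) • (p k + q k) = c.x₀ := by simp only [p, q]; module
    rw [h10] at h9
    have haB : a ≤ B := by
      have e1 := dist_triangle y x (c.ψ (q k))
      rw [dist_comm y x] at e1
      have e2 : (1 / 2 : ℝ) ^ k * ‖w - c.x₀‖ ≤ c.r := by
        have e3 : ρ₀ ≤ c.r := by
          have := c.r₁_lt
          have := c.r₁pos
          linarith [hρ₀le.trans hρ1]
        have := hpk k
        nlinarith
      have e4 : c.L * ((1 / 2 : ℝ) ^ k * ‖w - c.x₀‖) ≤ c.L * c.r := by gcongr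
      linarith
    have hy0 : dist y (c.ψ c.x₀) = dist x y := by rw [← hx, dist_comm]
    rw [hy0] at h9
    rw [hx0]
    have h11 : 2 * a * ε ≤ 2 * B * ε := by gcongr
    have h12 : -(2 * B * (c.L * (η * ‖w - c.x₀‖))) * (1 / 2 : ℝ) ^ k = -(2 * B * ε) := by
      rw [hε]; ring
    rw [h12]
    simp only [h]
    have h13 : dist y (c.ψ (p k)) ^ 2 + a ^ 2 ≥ 2 * dist x y ^ 2 := by rw [ha]; linarith
    linarith
  -- conclusion
  have hmain : h c.x₀ ≤ h w := by
    apply le_of_forall_pos_le_add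
    intro ε hε
    have hn := norm_nonneg (w - c.x₀)
    obtain ⟨k, hk⟩ := hlow (ε / (2 * B * (c.L * ‖w - c.x₀‖) + 1)) (by positivity)
    have h1 := (hk.trans (hup k))
    have h2 := hpk0 k
    have h3 : -(2 * B * (c.L * (ε / (2 * B * (c.L * ‖w - c.x₀‖) + 1) * ‖w - c.x₀‖))) ≤
        h w - h c.x₀ := by
      by_contra hc
      push Not at hc
      nlinarith
    have h4 : 2 * B * (c.L * (ε / (2 * B * (c.L * ‖w - c.x₀‖) + 1) * ‖w - c.x₀‖)) ≤ ε := by
      have e1 : 2 * B * (c.L * (ε / (2 * B * (c.L * ‖w - c.x₀‖) + 1) * ‖w - c.x₀‖)) =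
        ε * ((2 * B * (c.L * ‖w - c.x₀‖)) / (2 * B * (c.L * ‖w - c.x₀‖) + 1)) := by
        field_simp
      rw [e1]
      have e2 : (2 * B * (c.L * ‖w - c.x₀‖)) / (2 * B * (c.L * ‖w - c.x₀‖) + 1) ≤ 1 := by
        rw [div_le_one (by positivity)]
        linarith
      nlinarith
    linarith
  have hwm : h w = dist y z ^ 2 / 2 := by
    simp only [h]
    rw [hw', hm1, dist_comm z m, hm2]
    ring
  rw [hx0, hwm] at hmain
  have hge : 2 * dist x y ≤ dist y z := by
    have h1 : (2 * dist x y) ^ 2 ≤ dist y z ^ 2 := by nlinarith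
    exact (pow_le_pow_iff_left₀ (by positivity) dist_nonneg two_ne_zero).mp h1
  exact le_antisymm hyz hge

end Loc

section Sym

variable {M : Type u} {E : Type v} [MetricSpace M] [NormedAddCommGroup E] [NormedSpace ℝ E]
  {R : ℝ} (G : Geo M E R)

include G

/-- an isometry which is the geodesic reflection near `x` is a symmetry at `x` -/
theorem isSymmetryAt_of_reflect [PreconnectedSpace M] (s : M ≃ᵢ M) {x : M} (hfix : s x = x)
    (h : ∃ δ > 0, ∀ y, dist x y < δ → dist y (s y) = 2 * dist x y) : IsSymmetryAt x s := by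
  obtain ⟨δ, hδ, h⟩ := h
  have hR := G.Rpos
  have hd : ∀ y, dist x (s y) = dist x y := by
    intro y
    have := s.isometry.dist_eq x y
    rwa [hfix] at this
  have h2 : ∀ y, dist x y < min δ (R / 2) → s (s y) = y := by
    intro y hy
    have h1 := h y (lt_of_lt_of_le hy (min_le_left _ _))
    have h1' := h (s y) (by rw [hd]; exact lt_of_lt_of_le hy (min_le_left _ _))
    rw [hd] at h1'
    have hyR : dist x y < R / 2 := lt_of_lt_of_le hy (min_le_right _ _)
    apply G.nonbranching (x := s y) (q := x) (r := dist x y) (by linarith)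
    · rw [dist_comm, hd]
    · rw [hd, hd]
    · exact h1'
    · rfl
    · rw [dist_comm]; exact h1
  have h3 : ∀ y, (s.trans s) y = y := by
    apply G.eq_id (x := x)
    exact ⟨min δ (R / 2), lt_min hδ (by linarith), fun y hy => h2 y hy⟩
  refine ⟨fun y => h3 y, hfix, δ, hδ, fun y hy hsy => ?_⟩
  have h4 := h y (by rw [dist_comm]; exact hy)
  rw [hsy, dist_self] at h4
  have : dist x y = 0 := by linarith
  exact (dist_eq_zero.mp this).symm

end Sym

end Pool.Agent.V8H75.Nag
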